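import Mathlib

set_option autoImplicit false

/-!
# Containers for dense systems of tuples

If every not too small subset `U` of `V` contains at least `η |U| ^ r` bad `r`-tuples, then every
subset `B` of `V` without bad tuples lies in a small set which is determined by a bounded number
of elements of `B`.
-/

namespace Pool.Agent.V11161.CL

open Finset

open Classical in
/-- the number of the `r`-tuples of `U` with `H` -/
noncomputable def cH {α : Type} {r : ℕ} (U : Finset α) (H : (Fin r → α) → Prop) : ℕ :=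
  ((Fintype.piFinset fun _ : Fin r => U).filter H).card

theorem cH_le {α : Type} {r : ℕ} (U : Finset α) (H : (Fin r → α) → Prop) :
    cH U H ≤ U.card ^ r := by
  classical
  unfold cH
  refine (card_filter_le _ _).trans (le_of_eq ?_)
  rw [Fintype.card_piFinset, prod_const, card_univ, Fintype.card_fin]

theorem cH_succ {α : Type} {r : ℕ} (U : Finset α) (H : (Fin (r + 1) → α) → Prop) :
    cH U H ≤ ∑ v ∈ U, cH U (fun t : Fin r → α => H (Fin.cons v t)) := by
  classical
  unfold cH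
  have h : (Fintype.piFinset fun _ : Fin (r + 1) => U).filter H ⊆ U.biUnion (fun v =>
      ((Fintype.piFinset fun _ : Fin r => U).filter fun t => H (Fin.cons v t)).image
        (fun t => (Fin.cons v t : Fin (r + 1) → α))) := by
    intro y hy
    obtain ⟨h1, h2⟩ := mem_filter.1 hy
    rw [Fintype.mem_piFinset] at h1
    rw [mem_biUnion]
    refine ⟨y 0, h1 0, mem_image.2 ⟨Fin.tail y, mem_filter.2 ⟨?_, ?_⟩, Fin.cons_self_tail y⟩⟩
    · rw [Fintype.mem_piFinset]
      intro i
      exact h1 i.succ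
    · rw [Fin.cons_self_tail]
      exact h2
  refine (card_le_card h).trans (card_biUnion_le.trans (sum_le_sum fun v _ => ?_))
  exact card_image_le

open Classical in
/-- one step -/
theorem cont_step {α : Type} : ∀ (r : ℕ) (η : ℝ), 0 < η → ∀ (H : (Fin r → α) → Prop)
    (U : Finset α), η * (U.card : ℝ) ^ r ≤ (cH U H : ℝ) →
    ∃ Ct : (Fin r → α) → Finset α,
      (∀ f, Ct f ⊆ U ∧ ((Ct f).card : ℝ) ≤ (1 - η / 2 ^ r) * (U.card : ℝ)) ∧
      ∀ B : Finset α, B.Nonempty → (∀ t : Fin r → α, (∀ i, t i ∈ B) → ¬ H t) →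
        ∃ f : Fin r → α, (∀ i, f i ∈ B) ∧ ∀ b ∈ B, b ∈ U → b ∈ Ct f := by
  intro r
  induction r with
  | zero =>
    intro η hη H U hH
    rw [pow_zero, mul_one] at hH
    have h1 : (cH U H : ℝ) ≤ 1 := by
      have := cH_le U H
      rw [pow_zero] at this
      exact_mod_cast this
    have h2 : 0 < cH U H := by
      have : (0 : ℝ) < cH U H := lt_of_lt_of_le hη hH
      exact_mod_cast this
    obtain ⟨t, ht⟩ := card_pos.1 h2
    have ht2 : H t := (mem_filter.1 ht).2
    refine ⟨fun _ => ∅, fun f => ⟨empty_subset _, ?_⟩, fun B _ hB => ?_⟩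
    · rw [card_empty, Nat.cast_zero, pow_zero, div_one]
      have : (0 : ℝ) ≤ U.card := Nat.cast_nonneg _
      nlinarith
    · exact absurd ht2 (hB t fun i => i.elim0)
  | succ r ih =>
    intro η hη H U hH
    set n : ℝ := (U.card : ℝ) with hn
    have hn0 : 0 ≤ n := Nat.cast_nonneg _
    set D : Finset α := U.filter fun v =>
      η / 2 * n ^ r ≤ (cH U (fun t : Fin r → α => H (Fin.cons v t)) : ℝ) with hD
    have hDU : D ⊆ U := filter_subset _ _
    have hDc : η / 2 * n ≤ (D.card : ℝ) := by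
      rcases eq_or_lt_of_le hn0 with h0 | h0
      · rw [← h0, mul_zero]
        exact Nat.cast_nonneg _
      · have h1 : (cH U H : ℝ) ≤ ∑ v ∈ U, (cH U (fun t : Fin r → α => H (Fin.cons v t)) : ℝ) := by
          exact_mod_cast cH_succ U H
        have h2 : ∑ v ∈ U, (cH U (fun t : Fin r → α => H (Fin.cons v t)) : ℝ) ≤
            ∑ v ∈ U, ((if v ∈ D then n ^ r else 0) + η / 2 * n ^ r) := by
          refine sum_le_sum fun v hv => ?_
          split_ifs with hvD
          · have h3 : (cH U (fun t : Fin r → α => H (Fin.cons v t)) : ℝ) ≤ n ^ r := by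
              have := cH_le U (fun t : Fin r → α => H (Fin.cons v t))
              rw [hn]
              exact_mod_cast this
            have : 0 ≤ η / 2 * n ^ r := by positivity
            linarith
          · rw [zero_add]
            by_contra hcon
            exact hvD (mem_filter.2 ⟨hv, (not_le.1 hcon).le⟩)
        have h3 : ∑ v ∈ U, ((if v ∈ D then n ^ r else 0) + η / 2 * n ^ r) =
            (D.card : ℝ) * n ^ r + n * (η / 2 * n ^ r) := by
          rw [sum_add_distrib, sum_const, nsmul_eq_mul, ← hn, ← sum_filter]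
          have : U.filter (fun v => v ∈ D) = D := by
            ext v
            rw [mem_filter]
            exact ⟨fun h => h.2, fun h => ⟨hDU h, h⟩⟩
          rw [this, sum_const, nsmul_eq_mul]
        have h4 : η * n ^ (r + 1) ≤ (D.card : ℝ) * n ^ r + n * (η / 2 * n ^ r) :=
          hH.trans (h1.trans (h2.trans h3.le))
        have h5 : (η / 2 * n) * n ^ r ≤ (D.card : ℝ) * n ^ r := by
          rw [pow_succ] at h4
          nlinarith
        exact le_of_mul_le_mul_right h5 (by positivity)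
    have hex : ∀ v : α, ∃ Cv : (Fin r → α) → Finset α, v ∈ D →
        (∀ f, Cv f ⊆ U ∧ ((Cv f).card : ℝ) ≤ (1 - η / 2 / 2 ^ r) * n) ∧
        ∀ B : Finset α, B.Nonempty →
          (∀ t : Fin r → α, (∀ i, t i ∈ B) → ¬ H (Fin.cons v t)) →
          ∃ f : Fin r → α, (∀ i, f i ∈ B) ∧ ∀ b ∈ B, b ∈ U → b ∈ Cv f := by
      intro v
      by_cases hv : v ∈ D
      · obtain ⟨Cv, hCv⟩ := ih (η / 2) (by linarith) (fun t : Fin r → α => H (Fin.cons v t)) U
          (mem_filter.1 hv).2
        exact ⟨Cv, fun _ => hCv⟩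
      · exact ⟨fun _ => ∅, fun h => absurd h hv⟩
    choose Cv hCv using hex
    have e2 : η / 2 / 2 ^ r = η / 2 ^ (r + 1) := by
      rw [pow_succ]
      field_simp
    refine ⟨fun f => if f 0 ∈ D then Cv (f 0) (Fin.tail f) else U \ D, fun f => ?_, fun B hBne hB => ?_⟩
    · by_cases hf : f 0 ∈ D
      · simp only [hf, if_true]
        rw [← e2]
        exact (hCv (f 0) hf).1 (Fin.tail f)
      · simp only [hf, if_false]
        refine ⟨sdiff_subset, ?_⟩
        rw [cast_card_sdiff hDU, ← hn, ← e2]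
        have h1 : η / 2 / 2 ^ r ≤ η / 2 := by
          apply div_le_self (by linarith)
          exact one_le_pow₀ (by norm_num)
        nlinarith
    · by_cases hBD : ∃ v, v ∈ B ∧ v ∈ D
      · obtain ⟨v, hvB, hvD⟩ := hBD
        obtain ⟨f, hf1, hf2⟩ := (hCv v hvD).2 B hBne (fun t ht => hB _ (by
          intro i
          refine Fin.cases ?_ (fun j => ?_) i
          · rw [Fin.cons_zero]; exact hvB
          · rw [Fin.cons_succ]; exact ht j))
        refine ⟨Fin.cons v f, ?_, ?_⟩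
        · intro i
          refine Fin.cases ?_ (fun j => ?_) i
          · rw [Fin.cons_zero]; exact hvB
          · rw [Fin.cons_succ]; exact hf1 j
        · intro b hb hbU
          simp only [Fin.cons_zero, hvD, if_true, Fin.tail_cons]
          exact hf2 b hb hbU
      · push Not at hBD
        obtain ⟨b0, hb0⟩ := hBne
        refine ⟨fun _ => b0, fun _ => hb0, fun b hb hbU => ?_⟩
        simp only [hBD b0 hb0, if_false]
        exact mem_sdiff.2 ⟨hbU, hBD b hb⟩

open Classical in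
/-- the iteration -/
theorem cont_iter {α : Type} (r : ℕ) (η β : ℝ) (hη : 0 < η) (hη1 : η ≤ 1) (V : Finset α)
    (H : (Fin r → α) → Prop)
    (hH : ∀ U ⊆ V, β * (V.card : ℝ) ≤ U.card → η * (U.card : ℝ) ^ r ≤ (cH U H : ℝ)) :
    ∀ s : ℕ, ∃ Ct : (Fin s → Fin r → α) → Finset α,
      (∀ f, Ct f ⊆ V ∧ (((Ct f).card : ℝ) < β * V.card ∨
        ((Ct f).card : ℝ) ≤ (1 - η / 2 ^ r) ^ s * (V.card : ℝ))) ∧
      ∀ B : Finset α, B.Nonempty → B ⊆ V → (∀ t : Fin r → α, (∀ i, t i ∈ B) → ¬ H t) →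
        ∃ f : Fin s → Fin r → α, (∀ i j, f i j ∈ B) ∧ B ⊆ Ct f := by
  have hq0 : 0 ≤ 1 - η / 2 ^ r := by
    have : η / 2 ^ r ≤ η := div_le_self hη.le (one_le_pow₀ (by norm_num))
    linarith
  intro s
  induction s with
  | zero =>
    refine ⟨fun _ => V, fun f => ⟨subset_rfl, Or.inr ?_⟩, fun B _ hBV _ =>
      ⟨fun i => i.elim0, fun i => i.elim0, hBV⟩⟩
    rw [pow_zero, one_mul]
  | succ s ih =>
    obtain ⟨Ct, hC1, hC2⟩ := ih
    have hex : ∀ W : Finset α, ∃ CW : (Fin r → α) → Finset α, W ⊆ V → β * (V.card : ℝ) ≤ W.card →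
        (∀ f, CW f ⊆ W ∧ ((CW f).card : ℝ) ≤ (1 - η / 2 ^ r) * (W.card : ℝ)) ∧
      ∀ B : Finset α, B.Nonempty → (∀ t : Fin r → α, (∀ i, t i ∈ B) → ¬ H t) →
        ∃ f : Fin r → α, (∀ i, f i ∈ B) ∧ ∀ b ∈ B, b ∈ W → b ∈ CW f := by
      intro W
      by_cases hW : W ⊆ V ∧ β * (V.card : ℝ) ≤ W.card
      · obtain ⟨CW, hCW⟩ := cont_step r η hη H W (hH W hW.1 hW.2)
        exact ⟨CW, fun _ _ => hCW⟩
      · exact ⟨fun _ => ∅, fun h1 h2 => absurd ⟨h1, h2⟩ hW⟩
    choose CW hCW using hex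
    refine ⟨fun f => if ((Ct (Fin.tail f)).card : ℝ) < β * V.card then Ct (Fin.tail f)
      else CW (Ct (Fin.tail f)) (f 0), fun f => ?_, fun B hBne hBV hB => ?_⟩
    · by_cases h : ((Ct (Fin.tail f)).card : ℝ) < β * V.card
      · simp only [h, if_true]
        exact ⟨(hC1 _).1, Or.inl trivial⟩
      · simp only [h, if_false]
        obtain ⟨h1, -⟩ := hCW (Ct (Fin.tail f)) (hC1 _).1 (not_lt.1 h)
        refine ⟨(h1 (f 0)).1.trans (hC1 _).1, Or.inr ?_⟩
        have h2 : ((Ct (Fin.tail f)).card : ℝ) ≤ (1 - η / 2 ^ r) ^ s * (V.card : ℝ) :=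
          (hC1 _).2.resolve_left h
        calc ((CW (Ct (Fin.tail f)) (f 0)).card : ℝ) ≤
              (1 - η / 2 ^ r) * ((Ct (Fin.tail f)).card : ℝ) := (h1 (f 0)).2
          _ ≤ (1 - η / 2 ^ r) * ((1 - η / 2 ^ r) ^ s * (V.card : ℝ)) :=
              mul_le_mul_of_nonneg_left h2 hq0
          _ = _ := by rw [pow_succ]; ring
    · obtain ⟨f, hf1, hf2⟩ := hC2 B hBne hBV hB
      by_cases h : ((Ct f).card : ℝ) < β * V.card
      · obtain ⟨b0, hb0⟩ := hBne
        refine ⟨Fin.cons (fun _ => b0) f, ?_, ?_⟩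
        · intro i j
          refine Fin.cases ?_ (fun i' => ?_) i
          · rw [Fin.cons_zero]; exact hb0
          · rw [Fin.cons_succ]; exact hf1 i' j
        · simp only [Fin.tail_cons, h, if_true]
          exact hf2
      · obtain ⟨-, h2⟩ := hCW (Ct f) (hC1 _).1 (not_lt.1 h)
        obtain ⟨g, hg1, hg2⟩ := h2 B hBne hB
        refine ⟨Fin.cons g f, ?_, ?_⟩
        · intro i j
          refine Fin.cases ?_ (fun i' => ?_) i
          · rw [Fin.cons_zero]; exact hg1 j
          · rw [Fin.cons_succ]; exact hf1 i' j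
        · simp only [Fin.tail_cons, Fin.cons_zero, h, if_false]
          intro b hb
          exact hg2 b hb (hf2 hb)

open Classical in
/-- **containers** -/
theorem containers (r : ℕ) (η β : ℝ) (hη : 0 < η) (hη1 : η ≤ 1) (hβ : 0 < β) :
    ∃ s : ℕ, ∀ (α : Type) (V : Finset α) (H : (Fin r → α) → Prop),
      (∀ U ⊆ V, β * (V.card : ℝ) ≤ U.card → η * (U.card : ℝ) ^ r ≤ (cH U H : ℝ)) →
      ∃ Ct : (Fin s × Fin r → α) → Finset α,
      (∀ f, Ct f ⊆ V ∧ ((Ct f).card : ℝ) ≤ β * V.card) ∧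
      ∀ B : Finset α, B.Nonempty → B ⊆ V → (∀ t : Fin r → α, (∀ i, t i ∈ B) → ¬ H t) →
        ∃ f : Fin s × Fin r → α, (∀ i, f i ∈ B) ∧ B ⊆ Ct f := by
  have hq0 : 0 ≤ 1 - η / 2 ^ r := by
    have : η / 2 ^ r ≤ η := div_le_self hη.le (one_le_pow₀ (by norm_num))
    linarith
  have hq1 : 1 - η / 2 ^ r < 1 := by
    have : 0 < η / 2 ^ r := by positivity
    linarith
  obtain ⟨s, hs⟩ := exists_pow_lt_of_lt_one hβ hq1
  refine ⟨s, fun α V H hH => ?_⟩
  obtain ⟨Ct, hC1, hC2⟩ := cont_iter r η β hη hη1 V H hH s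
  refine ⟨fun F => Ct fun i j => F (i, j), fun F => ⟨(hC1 _).1, ?_⟩, fun B hBne hBV hB => ?_⟩
  · rcases (hC1 fun i j => F (i, j)).2 with h | h
    · exact h.le
    · exact h.trans (mul_le_mul_of_nonneg_right hs.le (Nat.cast_nonneg _))
  · obtain ⟨f, hf1, hf2⟩ := hC2 B hBne hBV hB
    exact ⟨fun ij => f ij.1 ij.2, fun ij => hf1 ij.1 ij.2, hf2⟩

end Pool.Agent.V11161.CL
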