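import Mathlib

set_option autoImplicit false

/-!
# The number of the elements of a random tuple in a set determined by a part of the tuple
-/

namespace Pool.Agent.V11161.CL

open Finset

open Classical in
/-- an exponential moment: all tuples -/
theorem expo_sum {α : Type} (V : Finset α) (hV : V.Nonempty) {T : ℕ} {ι : Type} [Fintype ι]
    (u : ι → Fin T) (Ct : (ι → α) → Finset α) (β : ℝ) (hβ : 0 ≤ β)
    (hC : ∀ F, Ct F ⊆ V ∧ ((Ct F).card : ℝ) ≤ β * V.card) (L : ℝ) (hL : 1 ≤ L) :
    (∑ x ∈ Fintype.piFinset (fun _ : Fin T => V), ∏ i : Fin T,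
      (if i ∈ univ.image u then (1 : ℝ) else if x i ∈ Ct (fun j => x (u j)) then L else 1)) ≤
      (1 + (L - 1) * β) ^ T * (V.card : ℝ) ^ T := by
  obtain ⟨v0, hv0⟩ := hV
  set I : Finset (Fin T) := univ.image u with hI
  set n : ℝ := (V.card : ℝ) with hn
  have hn0 : 0 ≤ n := Nat.cast_nonneg _
  set q : ℝ := 1 + (L - 1) * β with hq
  have hq1 : 1 ≤ q := by
    have : 0 ≤ (L - 1) * β := mul_nonneg (by linarith) hβ
    linarith
  set ρ : (Fin T → α) → (Fin T → α) := fun x i => if i ∈ I then x i else v0 with hρ
  set R : Finset (Fin T → α) := Fintype.piFinset fun i => if i ∈ I then V else {v0} with hR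
  set W : (Fin T → α) → Fin T → α → ℝ := fun g i b =>
    if i ∈ I then (1 : ℝ) else if b ∈ Ct (fun j => g (u j)) then L else 1 with hW
  have hW0 : ∀ g i b, 0 ≤ W g i b := by
    intro g i b
    simp only [hW]
    split_ifs <;> linarith
  have huI : ∀ j, u j ∈ I := fun j => mem_image_of_mem _ (mem_univ j)
  have hmap : ∀ x ∈ Fintype.piFinset (fun _ : Fin T => V), ρ x ∈ R := by
    intro x hx
    rw [Fintype.mem_piFinset] at hx ⊢
    intro i
    simp only [hρ]
    split_ifs with h
    · exact hx i
    · exact mem_singleton_self _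
  have h1 : (∑ x ∈ Fintype.piFinset (fun _ : Fin T => V), ∏ i : Fin T,
      (if i ∈ I then (1 : ℝ) else if x i ∈ Ct (fun j => x (u j)) then L else 1)) =
      ∑ g ∈ R, ∑ x ∈ (Fintype.piFinset (fun _ : Fin T => V)).filter (fun x => ρ x = g),
        ∏ i : Fin T, W g i (x i) := by
    rw [← sum_fiberwise_of_maps_to hmap]
    refine sum_congr rfl fun g _ => sum_congr rfl fun x hx => prod_congr rfl fun i _ => ?_
    have hx2 : ρ x = g := (mem_filter.1 hx).2
    have hgu : (fun j => g (u j)) = fun j => x (u j) := by
      funext j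
      rw [← hx2]
      simp only [hρ, huI j, if_true]
    simp only [hW, hgu]
  rw [h1]
  have h2 : ∀ g ∈ R, (∑ x ∈ (Fintype.piFinset (fun _ : Fin T => V)).filter (fun x => ρ x = g),
        ∏ i : Fin T, W g i (x i)) ≤ ∏ i : Fin T, (if i ∈ I then (1 : ℝ) else n * q) := by
    intro g _
    have h3 : (Fintype.piFinset (fun _ : Fin T => V)).filter (fun x => ρ x = g) ⊆
        Fintype.piFinset (fun i => if i ∈ I then {g i} else V) := by
      intro x hx
      obtain ⟨h4, h5⟩ := mem_filter.1 hx
      rw [Fintype.mem_piFinset] at h4 ⊢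
      intro i
      by_cases h : i ∈ I
      · simp only [h, if_true]
        rw [mem_singleton, ← h5]
        simp only [hρ, h, if_true]
      · simp only [h, if_false]
        exact h4 i
    calc (∑ x ∈ (Fintype.piFinset (fun _ : Fin T => V)).filter (fun x => ρ x = g),
          ∏ i : Fin T, W g i (x i)) ≤
          ∑ x ∈ Fintype.piFinset (fun i => if i ∈ I then {g i} else V), ∏ i : Fin T, W g i (x i) :=
          sum_le_sum_of_subset_of_nonneg h3 fun x _ _ => prod_nonneg fun i _ => hW0 g i (x i)
      _ = ∏ i : Fin T, ∑ b ∈ (if i ∈ I then {g i} else V), W g i b :=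
          (prod_univ_sum _ _).symm
      _ ≤ _ := by
          refine prod_le_prod (fun i _ => sum_nonneg fun b _ => hW0 g i b) fun i _ => ?_
          by_cases h : i ∈ I
          · simp only [h, if_true, sum_singleton, hW, le_refl]
          · simp only [h, if_false, hW]
            have e1 : ∑ b ∈ V, (if b ∈ Ct (fun j => g (u j)) then L else 1) =
                n + (L - 1) * ((Ct (fun j => g (u j))).card : ℝ) := by
              have e2 : ∀ b ∈ V, (if b ∈ Ct (fun j => g (u j)) then L else 1) =
                  1 + (if b ∈ Ct (fun j => g (u j)) then (L - 1) else 0) := by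
                intro b _
                split_ifs <;> ring
              rw [sum_congr rfl e2, sum_add_distrib, sum_const, nsmul_eq_mul, mul_one, ← sum_filter]
              have e3 : V.filter (fun b => b ∈ Ct (fun j => g (u j))) = Ct (fun j => g (u j)) := by
                ext b
                rw [mem_filter]
                exact ⟨fun h => h.2, fun h => ⟨(hC _).1 h, h⟩⟩
              rw [e3, sum_const, nsmul_eq_mul]
              ring
            rw [e1]
            have h6 := (hC (fun j => g (u j))).2
            have h7 : (L - 1) * ((Ct (fun j => g (u j))).card : ℝ) ≤ (L - 1) * (β * n) :=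
              mul_le_mul_of_nonneg_left h6 (by linarith)
            rw [hq]
            nlinarith
  have h3 : (R.card : ℝ) = ∏ i : Fin T, (if i ∈ I then n else 1) := by
    rw [hR, Fintype.card_piFinset]
    push_cast
    refine prod_congr rfl fun i _ => ?_
    split_ifs
    · rfl
    · rw [card_singleton, Nat.cast_one]
  calc _ ≤ ∑ g ∈ R, ∏ i : Fin T, (if i ∈ I then (1 : ℝ) else n * q) := sum_le_sum h2
    _ = (∏ i : Fin T, (if i ∈ I then n else 1)) * ∏ i : Fin T, (if i ∈ I then (1 : ℝ) else n * q) := by
        rw [sum_const, nsmul_eq_mul, h3]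
    _ = ∏ i : Fin T, ((if i ∈ I then n else 1) * (if i ∈ I then (1 : ℝ) else n * q)) :=
        prod_mul_distrib.symm
    _ ≤ ∏ _i : Fin T, (q * n) := by
        refine prod_le_prod (fun i _ => ?_) fun i _ => ?_
        · split_ifs
          · linarith
          · positivity
        · split_ifs
          · nlinarith
          · linarith
    _ = q ^ T * n ^ T := by
        rw [prod_const, card_univ, Fintype.card_fin, mul_pow]

open Classical in
/-- the tuples with many elements in the set determined by some of them -/
theorem expo {α : Type} (V : Finset α) (hV : V.Nonempty) {T : ℕ} {ι : Type} [Fintype ι]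
    (u : ι → Fin T) (Ct : (ι → α) → Finset α) (β : ℝ) (hβ : 0 ≤ β)
    (hC : ∀ F, Ct F ⊆ V ∧ ((Ct F).card : ℝ) ≤ β * V.card) (L : ℝ) (hL : 1 ≤ L) (a : ℕ) :
    (((Fintype.piFinset fun _ : Fin T => V).filter fun x =>
      a ≤ (univ.filter fun i => x i ∈ Ct (fun j => x (u j))).card).card : ℝ) * L ^ a ≤
      L ^ (Fintype.card ι) * ((1 + (L - 1) * β) ^ T * (V.card : ℝ) ^ T) := by
  set I : Finset (Fin T) := univ.image u with hI
  have hIc : I.card ≤ Fintype.card ι := card_image_le
  have h0 := expo_sum V hV u Ct β hβ hC L hL
  have hL0 : (0 : ℝ) < L := by linarith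
  refine le_trans ?_ (mul_le_mul_of_nonneg_left h0 (by positivity))
  rw [mul_sum, ← nsmul_eq_mul]
  refine (card_nsmul_le_sum _ (fun x => L ^ (Fintype.card ι) * ∏ i : Fin T,
      (if i ∈ univ.image u then (1 : ℝ) else if x i ∈ Ct (fun j => x (u j)) then L else 1)) _ ?_).trans ?_
  · intro x hx
    have ha := (mem_filter.1 hx).2
    set C := Ct (fun j => x (u j)) with hCd
    have h1 : ∏ i : Fin T, (if i ∈ univ.image u then (1 : ℝ) else if x i ∈ C then L else 1) =
        L ^ (univ.filter fun i => i ∉ I ∧ x i ∈ C).card := by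
      rw [← prod_const, prod_filter]
      refine prod_congr rfl fun i _ => ?_
      by_cases h : i ∈ I
      · simp only [h, not_true_eq_false, false_and, if_false]
        have : i ∈ univ.image u := h
        simp only [this, if_true]
      · have h' : i ∉ univ.image u := h
        simp only [h, h', if_false, not_false_eq_true, true_and]
    rw [h1, ← pow_add]
    apply pow_le_pow_right₀ hL
    have h2 : (univ.filter fun i => x i ∈ C) ⊆ I ∪ univ.filter fun i => i ∉ I ∧ x i ∈ C := by
      intro i hi
      rw [mem_union]
      by_cases h : i ∈ I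
      · exact Or.inl h
      · exact Or.inr (mem_filter.2 ⟨mem_univ _, h, (mem_filter.1 hi).2⟩)
    have h3 := (card_le_card h2).trans (card_union_le _ _)
    omega
  · refine sum_le_sum_of_subset_of_nonneg (filter_subset _ _) fun x _ _ => ?_
    refine mul_nonneg (by positivity) (prod_nonneg fun i _ => ?_)
    split_ifs <;> linarith

end Pool.Agent.V11161.CL
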