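import Mathlib
import Pool.Agent.V11161.CL.Cont
import Pool.Agent.V11161.CL.Expo
import Pool.Agent.W25.QL.Main

set_option autoImplicit false

/-!
# Clusters

If almost all `T`-tuples `x` of `V` have, for `T` large, a subset of at least `T / lam` places with
values in the family `G`, then `V` has a subset `U` with at least `(1 / lam - ε) |V|` elements such
that almost all `(k + 1)`-tuples of `U` are in `G`.
-/

namespace Pool.Agent.V11161.CL

open Finset Filter
open Pool.Agent.W25.QL (Fails)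
open Pool.Agent.W70.QP (Cx mem_Cx)

/-- the choice of the number of places -/
theorem choose_T {lam β : ℝ} (hlam : 1 ≤ lam) (hβ0 : 0 ≤ β) (hβ : β < 1 / lam) (q : ℕ) (δ : ℝ)
    (hδ : 0 < δ) : ∃ (L : ℝ) (T : ℕ), 1 ≤ L ∧ 1 ≤ T ∧ ∀ a : ℕ, (T : ℝ) ≤ lam * a →
      (T : ℝ) ^ q * (L ^ q * (1 + (L - 1) * β) ^ T) ≤ δ * L ^ a := by
  have hl0 : 0 < lam := by linarith
  set e : ℝ := 1 / lam - β with he
  have he0 : 0 < e := by linarith
  have hl1 : 1 / lam ≤ 1 := by rw [div_le_one hl0]; exact hlam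
  have he1 : e ≤ 1 := by linarith
  have hβ1 : β ≤ 1 := by linarith
  set s : ℝ := e / 2 with hs
  have hs0 : 0 < s := by linarith
  have hs1 : s ≤ 1 := by linarith
  set c : ℝ := e ^ 2 / 4 with hc
  have hc0 : 0 < c := by positivity
  have hexp : Real.exp s - 1 ≤ s + s ^ 2 := by
    have := Real.abs_exp_sub_one_sub_id_le (x := s) (by rw [abs_of_pos hs0]; exact hs1)
    have := (abs_le.1 this).2
    linarith
  have hL1 : 1 ≤ Real.exp s := Real.one_le_exp hs0.le
  -- the factor
  have hfac : ∀ (T a : ℕ), (T : ℝ) ≤ lam * a →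
      (1 + (Real.exp s - 1) * β) ^ T ≤ (Real.exp (-c)) ^ T * (Real.exp s) ^ a := by
    intro T a hTa
    have h1 : 1 + (Real.exp s - 1) * β ≤ Real.exp ((Real.exp s - 1) * β) := by
      have := Real.add_one_le_exp ((Real.exp s - 1) * β)
      linarith
    have h2 : (1 + (Real.exp s - 1) * β) ^ T ≤ Real.exp ((Real.exp s - 1) * β) ^ T := by
      apply pow_le_pow_left₀ _ h1
      have : 0 ≤ (Real.exp s - 1) * β := mul_nonneg (by linarith) hβ0
      linarith
    refine h2.trans ?_
    rw [← Real.exp_nat_mul, ← Real.exp_nat_mul, ← Real.exp_nat_mul, ← Real.exp_add]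
    apply Real.exp_le_exp.2
    have h3 : (Real.exp s - 1) * β ≤ (s + s ^ 2) * β := mul_le_mul_of_nonneg_right hexp hβ0
    have h4 : (s + s ^ 2) * β ≤ -c + s * (1 / lam) := by
      have e1 : β = 1 / lam - e := by rw [he]; ring
      have h5 : (s + s ^ 2) * β = s * (1 / lam) - s * e + s ^ 2 * β := by
        rw [add_mul]
        nth_rewrite 1 [e1]
        ring
      rw [h5]
      have h6 : s ^ 2 * β ≤ s ^ 2 := by nlinarith [sq_nonneg s]
      have h7 : s * e = e ^ 2 / 2 := by rw [hs]; ring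
      have h8 : s ^ 2 = e ^ 2 / 4 := by rw [hs]; ring
      rw [h7, hc]
      linarith
    have h5 : (T : ℝ) * ((Real.exp s - 1) * β) ≤ T * (-c + s * (1 / lam)) :=
      mul_le_mul_of_nonneg_left (h3.trans h4) (Nat.cast_nonneg _)
    have h6 : (T : ℝ) * (1 / lam) ≤ a := by
      rw [mul_one_div, div_le_iff₀ hl0]
      linarith
    have h7 : s * ((T : ℝ) * (1 / lam)) ≤ s * a := mul_le_mul_of_nonneg_left h6 hs0.le
    nlinarith
  have hlim := tendsto_pow_const_mul_const_pow_of_abs_lt_one q (r := Real.exp (-c)) (by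
    rw [abs_of_pos (Real.exp_pos _)]
    rw [← Real.exp_zero]
    exact Real.exp_lt_exp.2 (by linarith))
  have hd : 0 < δ / (Real.exp s) ^ q := by positivity
  obtain ⟨T, hT1, hT⟩ := ((eventually_ge_atTop 1).and (hlim.eventually_lt_const hd)).exists
  refine ⟨Real.exp s, T, hL1, hT1, fun a ha => ?_⟩
  have h1 := hfac T a ha
  have h2 : (T : ℝ) ^ q * (Real.exp s ^ q * (1 + (Real.exp s - 1) * β) ^ T) ≤
      (T : ℝ) ^ q * (Real.exp s ^ q * ((Real.exp (-c)) ^ T * (Real.exp s) ^ a)) := by
    gcongr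
  refine h2.trans ?_
  have h3 : (T : ℝ) ^ q * Real.exp (-c) ^ T * Real.exp s ^ q ≤ δ := by
    rw [lt_div_iff₀ (by positivity)] at hT
    exact hT.le
  calc (T : ℝ) ^ q * (Real.exp s ^ q * ((Real.exp (-c)) ^ T * (Real.exp s) ^ a)) =
        ((T : ℝ) ^ q * Real.exp (-c) ^ T * Real.exp s ^ q) * (Real.exp s) ^ a := by ring
    _ ≤ δ * (Real.exp s) ^ a := mul_le_mul_of_nonneg_right h3 (by positivity)

open Classical in
/-- **clusters** -/
theorem cluster {lam : ℝ} (hlam : 1 ≤ lam) (k : ℕ) (ε : ℝ) (hε : 0 < ε) : ∃ T n₁ : ℕ, 1 ≤ T ∧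
    ∀ (α : Type) [DecidableEq α] (V : Finset α) (G : Finset α → Prop), n₁ ≤ V.card →
      (∀ F F' : Finset α, F' ⊆ F → G F → G F') →
      ((((Fintype.piFinset (fun _ : Fin T => V)).filter (fun x => Function.Injective x ∧
        ∃ m, Fails lam (Cx G x) m)).card : ℝ) ≤ 1 / 4 * (V.card : ℝ) ^ T) →
      ∃ U ⊆ V, (1 / lam - ε) * (V.card : ℝ) ≤ U.card ∧
        (1 - ε) * (U.card : ℝ) ^ (k + 1) ≤
          (((Fintype.piFinset (fun _ : Fin (k + 1) => U)).filter (fun y => Function.Injective y ∧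
            G (univ.image y))).card : ℝ) := by
  have hl0 : 0 < lam := by linarith
  have hl1 : 1 / lam ≤ 1 := by rw [div_le_one hl0]; exact hlam
  rcases le_or_gt (1 / lam) ε with hcase | hcase
  · refine ⟨1, 0, le_rfl, fun α _ V G _ _ _ => ⟨∅, empty_subset _, ?_, ?_⟩⟩
    · have h1 : (1 / lam - ε) * (V.card : ℝ) ≤ 0 :=
        mul_nonpos_of_nonpos_of_nonneg (by linarith) (Nat.cast_nonneg _)
      exact h1.trans (Nat.cast_nonneg _)
    · rw [card_empty, Nat.cast_zero, zero_pow (Nat.succ_ne_zero k), mul_zero]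
      exact Nat.cast_nonneg _
  set β : ℝ := 1 / lam - ε with hβ
  have hβ0 : 0 < β := by linarith
  have hβlt : β < 1 / lam := by linarith
  have hε1 : ε < 1 := by linarith
  obtain ⟨s, hs⟩ := containers (r := k + 1) (ε / 2) β (by linarith) (by linarith) hβ0
  obtain ⟨L, T, hL1, hT1, hLT⟩ := choose_T hlam hβ0.le hβlt (s * (k + 1)) (1 / 4) (by norm_num)
  set n₁ : ℕ := ⌈4 * (T : ℝ) ^ 2⌉₊ + ⌈2 * ((k + 1 : ℕ) : ℝ) ^ 2 / ε / β⌉₊ + 1 with hn₁
  refine ⟨T, n₁, hT1, fun α _ V G hV hG hbad => ?_⟩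
  by_contra hcon
  push Not at hcon
  set n : ℝ := (V.card : ℝ) with hn
  have hnn : (n₁ : ℝ) ≤ n := by rw [hn]; exact_mod_cast hV
  have hn1a : 4 * (T : ℝ) ^ 2 ≤ n := by
    refine le_trans (Nat.le_ceil _) (le_trans ?_ hnn)
    rw [hn₁]
    push_cast
    have : (0 : ℝ) ≤ (⌈2 * ((k + 1 : ℕ) : ℝ) ^ 2 / ε / β⌉₊ : ℝ) := Nat.cast_nonneg _
    push_cast at this
    linarith
  have hn1b : 2 * ((k + 1 : ℕ) : ℝ) ^ 2 / ε ≤ β * n := by
    have h1 : 2 * ((k + 1 : ℕ) : ℝ) ^ 2 / ε / β ≤ n := by
      refine le_trans (Nat.le_ceil _) (le_trans ?_ hnn)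
      rw [hn₁]
      push_cast
      have : (0 : ℝ) ≤ (⌈4 * (T : ℝ) ^ 2⌉₊ : ℝ) := Nat.cast_nonneg _
      linarith
    rw [div_le_iff₀ hβ0] at h1
    linarith
  have hV0 : 0 < V.card := by omega
  have hn0 : 0 < n := by rw [hn]; exact_mod_cast hV0
  have hVne : V.Nonempty := card_pos.1 hV0
  set H : (Fin (k + 1) → α) → Prop := fun y => Function.Injective y ∧ ¬ G (univ.image y) with hH
  have hHd : ∀ U ⊆ V, β * (V.card : ℝ) ≤ U.card →
      ε / 2 * (U.card : ℝ) ^ (k + 1) ≤ (cH U H : ℝ) := by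
    intro U hU hUc
    have h1 := hcon U hU hUc
    set m : ℝ := (U.card : ℝ) with hm
    have hm1 : 2 * ((k + 1 : ℕ) : ℝ) ^ 2 / ε ≤ m := hn1b.trans hUc
    have hm0 : 0 < m := lt_of_lt_of_le (by positivity) hm1
    have hni := Pool.Agent.H362R2.CM.card_not_injective_le (k + 1) U
    rw [← hm] at hni
    have hni' : (((Fintype.piFinset (fun _ : Fin (k + 1) => U)).filter
        (fun φ => ¬ Function.Injective φ)).card : ℝ) ≤ ε / 2 * m ^ (k + 1) := by
      have h2 : (((Fintype.piFinset (fun _ : Fin (k + 1) => U)).filter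
        (fun φ => ¬ Function.Injective φ)).card : ℝ) * m ≤ (ε / 2 * m ^ (k + 1)) * m := by
        refine le_trans (le_of_eq (by congr!)) (hni.trans ?_)
        have h3 : ((k + 1 : ℕ) : ℝ) ^ 2 ≤ ε / 2 * m := by
          rw [div_le_iff₀ hε] at hm1
          linarith
        calc ((k + 1 : ℕ) : ℝ) ^ 2 * m ^ (k + 1) ≤ (ε / 2 * m) * m ^ (k + 1) :=
              mul_le_mul_of_nonneg_right h3 (by positivity)
          _ = _ := by ring
      exact le_of_mul_le_mul_right h2 hm0
    have htot : m ^ (k + 1) ≤ (cH U H : ℝ) + (((Fintype.piFinset (fun _ : Fin (k + 1) => U)).filter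
        (fun φ => ¬ Function.Injective φ)).card : ℝ) +
        (((Fintype.piFinset (fun _ : Fin (k + 1) => U)).filter (fun y => Function.Injective y ∧
            G (univ.image y))).card : ℝ) := by
      have h2 : Fintype.piFinset (fun _ : Fin (k + 1) => U) ⊆
          ((Fintype.piFinset fun _ : Fin (k + 1) => U).filter H) ∪
          ((Fintype.piFinset (fun _ : Fin (k + 1) => U)).filter
            (fun φ => ¬ Function.Injective φ)) ∪
          ((Fintype.piFinset (fun _ : Fin (k + 1) => U)).filter (fun y => Function.Injective y ∧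
            G (univ.image y))) := by
        intro y hy
        simp only [mem_union, mem_filter, hH]
        by_cases h3 : Function.Injective y
        · by_cases h4 : G (univ.image y)
          · exact Or.inr ⟨hy, h3, h4⟩
          · exact Or.inl (Or.inl ⟨hy, h3, h4⟩)
        · exact Or.inl (Or.inr ⟨hy, h3⟩)
      have h3 := (card_le_card h2).trans ((card_union_le _ _).trans
        (Nat.add_le_add_right (card_union_le _ _) _))
      rw [Fintype.card_piFinset, prod_const, card_univ, Fintype.card_fin] at h3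
      have hcH : cH U H = ((Fintype.piFinset fun _ : Fin (k + 1) => U).filter H).card := by
        unfold cH
        congr!
      rw [hm, hcH]
      exact_mod_cast h3
    linarith
  obtain ⟨Ct, hC1, hC2⟩ := hs α V H hHd
  set a : ℕ := ⌈(T : ℝ) / lam⌉₊ with ha
  have haT : (T : ℝ) ≤ lam * a := by
    have : (T : ℝ) / lam ≤ a := Nat.le_ceil _
    rw [div_le_iff₀ hl0] at this
    linarith
  set E : (Fin s × Fin (k + 1) → Fin T) → Finset (Fin T → α) := fun u =>
    (Fintype.piFinset fun _ : Fin T => V).filter fun x =>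
      a ≤ (univ.filter fun i => x i ∈ Ct (fun j => x (u j))).card with hE
  have hEc : ∀ u, ((E u).card : ℝ) * L ^ a ≤
      L ^ (s * (k + 1)) * ((1 + (L - 1) * β) ^ T * n ^ T) := by
    intro u
    have := expo V hVne u Ct β hβ0.le hC1 L hL1 a
    rw [Fintype.card_prod, Fintype.card_fin, Fintype.card_fin] at this
    convert this
  set Bad := (Fintype.piFinset (fun _ : Fin T => V)).filter (fun x => Function.Injective x ∧
        ∃ m, Fails lam (Cx G x) m) with hBad
  set NI := (Fintype.piFinset (fun _ : Fin T => V)).filter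
      (fun φ => ¬ Function.Injective φ) with hNI
  have hcov : Fintype.piFinset (fun _ : Fin T => V) ⊆ Bad ∪ NI ∪ univ.biUnion E := by
    intro x hx
    have hxV := Fintype.mem_piFinset.1 hx
    rw [mem_union, mem_union]
    by_cases h1 : Function.Injective x
    swap
    · exact Or.inl (Or.inr (mem_filter.2 ⟨hx, h1⟩))
    by_cases h2 : ∃ m, Fails lam (Cx G x) m
    · exact Or.inl (Or.inl (mem_filter.2 ⟨hx, h1, h2⟩))
    right
    push Not at h2
    have h3 := h2 (fun _ => 1)
    unfold Fails at h3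
    push Not at h3
    obtain ⟨S, hS, hSc⟩ := h3 (by
      rw [sum_const, card_univ, Fintype.card_fin, smul_eq_mul, mul_one]
      exact hT1)
    rw [sum_const, card_univ, Fintype.card_fin, smul_eq_mul, mul_one, sum_const, smul_eq_mul,
      mul_one] at hSc
    have hTpos : (0 : ℝ) < T := by exact_mod_cast hT1
    have hSpos : 0 < S.card := by
      have : (0 : ℝ) < S.card := by
        by_contra hneg
        have h0 : (S.card : ℝ) ≤ 0 := not_lt.1 hneg
        have : lam * (S.card : ℝ) ≤ 0 := mul_nonpos_of_nonneg_of_nonpos hl0.le h0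
        linarith
      exact_mod_cast this
    have haS : a ≤ S.card := by
      rw [ha]
      apply Nat.ceil_le.2
      rw [div_le_iff₀ hl0]
      linarith
    have hGS : G (S.image x) := mem_Cx.1 hS
    obtain ⟨f, hf1, hf2⟩ := hC2 (S.image x) ((card_pos.1 hSpos).image x) (by
      intro b hb
      obtain ⟨i, -, rfl⟩ := mem_image.1 hb
      exact hxV i) (by
      intro t ht hHt
      apply hHt.2
      apply hG _ _ _ hGS
      intro b hb
      obtain ⟨i, -, rfl⟩ := mem_image.1 hb
      exact ht i)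
    choose u hu1 hu2 using fun j => mem_image.1 (hf1 j)
    rw [mem_biUnion]
    refine ⟨u, mem_univ _, mem_filter.2 ⟨hx, haS.trans (card_le_card ?_)⟩⟩
    intro i hi
    rw [mem_filter]
    refine ⟨mem_univ _, ?_⟩
    have e1 : (fun j => x (u j)) = f := funext hu2
    rw [e1]
    exact hf2 (mem_image_of_mem x hi)
  have hsum : n ^ T ≤ (Bad.card : ℝ) + NI.card + ∑ u, ((E u).card : ℝ) := by
    have h1 := (card_le_card hcov).trans ((card_union_le _ _).trans
      (Nat.add_le_add (card_union_le _ _) card_biUnion_le))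
    rw [Fintype.card_piFinset, prod_const, card_univ, Fintype.card_fin] at h1
    rw [hn]
    exact_mod_cast h1
  have hNIc : (NI.card : ℝ) ≤ 1 / 4 * n ^ T := by
    have hni := Pool.Agent.H362R2.CM.card_not_injective_le T V
    rw [← hn] at hni
    have h1 : (NI.card : ℝ) * n ≤ (1 / 4 * n ^ T) * n := by
      refine le_trans (le_of_eq (by rw [hNI]; congr!)) (hni.trans ?_)
      calc (T : ℝ) ^ 2 * n ^ T ≤ (1 / 4 * n) * n ^ T :=
            mul_le_mul_of_nonneg_right (by linarith) (by positivity)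
        _ = _ := by ring
    exact le_of_mul_le_mul_right h1 hn0
  have hEsum : ∑ u, ((E u).card : ℝ) ≤ 1 / 4 * n ^ T := by
    have hLa : (0 : ℝ) < L ^ a := by positivity
    have h1 : (∑ u, ((E u).card : ℝ)) * L ^ a ≤ (1 / 4 * n ^ T) * L ^ a := by
      rw [sum_mul]
      calc ∑ u, ((E u).card : ℝ) * L ^ a ≤
            ∑ _u : Fin s × Fin (k + 1) → Fin T, L ^ (s * (k + 1)) * ((1 + (L - 1) * β) ^ T * n ^ T) :=
            sum_le_sum fun u _ => hEc u
        _ = (T : ℝ) ^ (s * (k + 1)) * (L ^ (s * (k + 1)) * (1 + (L - 1) * β) ^ T) * n ^ T := by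
            rw [sum_const, card_univ, Fintype.card_fun, Fintype.card_prod, Fintype.card_fin,
              Fintype.card_fin, Fintype.card_fin, nsmul_eq_mul]
            push_cast
            ring
        _ ≤ (1 / 4 * L ^ a) * n ^ T :=
            mul_le_mul_of_nonneg_right (hLT a haT) (by positivity)
        _ = _ := by ring
    exact le_of_mul_le_mul_right h1 hLa
  have hpos : 0 < n ^ T := by positivity
  linarith

end Pool.Agent.V11161.CL
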