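import Mathlib

set_option autoImplicit false

/-!
# Partitions into clusters
-/

namespace Pool.Agent.V11161.CL

open Finset

/-- if every not too small subset of `V` contains a set with `P` of the proportion `c`, then `V` is
a disjoint union of such sets, up to few elements -/
theorem partition {α : Type} [DecidableEq α] (ε c : ℝ) (hc1 : c ≤ 1) (n₀ : ℕ)
    (P : Finset α → Prop) (hP0 : P ∅) (V : Finset α) (hV : (n₀ : ℝ) ≤ ε * V.card)
    (hcl : ∀ R ⊆ V, n₀ ≤ R.card → ∃ U ⊆ R, c * (R.card : ℝ) ≤ U.card ∧ P U) (J : ℕ)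
    (hJ : (1 - c) ^ J ≤ ε) :
    ∃ U : Fin J → Finset α, (∀ j, U j ⊆ V) ∧ (∀ i j, i ≠ j → Disjoint (U i) (U j)) ∧
      ((V \ univ.biUnion U).card : ℝ) ≤ ε * V.card ∧
      (∀ j, U j = ∅ ∨ c * ((V \ (Iio j).biUnion U).card : ℝ) ≤ (U j).card) ∧ ∀ j, P (U j) := by
  have hex : ∀ R : Finset α, ∃ U ⊆ R, P U ∧ (R ⊆ V → (n₀ : ℝ) ≤ R.card →
      c * (R.card : ℝ) ≤ U.card) := by
    intro R
    by_cases h : R ⊆ V ∧ (n₀ : ℝ) ≤ R.card
    · obtain ⟨U, h1, h2, h3⟩ := hcl R h.1 (by exact_mod_cast h.2)
      exact ⟨U, h1, h3, fun _ _ => h2⟩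
    · exact ⟨∅, empty_subset _, hP0, fun h1 h2 => absurd ⟨h1, h2⟩ h⟩
  choose W hW1 hW2 hW3 using hex
  set Wc : Finset α → Finset α := fun R => if ε * (V.card : ℝ) < R.card then W R else ∅ with hWc
  have hWc1 : ∀ R, Wc R ⊆ R := by
    intro R
    simp only [hWc]
    split_ifs
    · exact hW1 R
    · exact empty_subset _
  set R : ℕ → Finset α := fun j => Nat.rec V (fun _ S => S \ Wc S) j with hR
  have hR0 : R 0 = V := rfl
  have hRs : ∀ j, R (j + 1) = R j \ Wc (R j) := fun j => rfl
  set U : ℕ → Finset α := fun j => Wc (R j) with hU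
  have hUR : ∀ j, U j ⊆ R j := fun j => hWc1 _
  have hRanti : ∀ i j, i ≤ j → R j ⊆ R i := by
    intro i j hij
    induction j, hij using Nat.le_induction with
    | base => exact subset_rfl
    | succ j _ ih => rw [hRs]; exact sdiff_subset.trans ih
  have hRV : ∀ j, R j ⊆ V := fun j => hRanti 0 j (Nat.zero_le _)
  have hdis : ∀ i j, i < j → Disjoint (U i) (U j) := by
    intro i j hij
    have h1 : U j ⊆ R (i + 1) := (hUR j).trans (hRanti (i + 1) j hij)
    rw [hRs] at h1
    exact (disjoint_sdiff.mono_right h1)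
  have hRU : ∀ j, V \ (range j).biUnion U = R j := by
    intro j
    induction j with
    | zero => rw [range_zero, biUnion_empty, sdiff_empty, hR0]
    | succ j ih =>
      have e1 : R (j + 1) = R j \ U j := hRs j
      rw [range_add_one, biUnion_insert, e1, ← ih]
      ext a
      simp only [mem_sdiff, mem_union]
      tauto
  have hRc : ∀ j, ((R j).card : ℝ) ≤ ε * V.card ∨ ((R j).card : ℝ) ≤ (1 - c) ^ j * V.card := by
    intro j
    induction j with
    | zero =>
      right
      rw [pow_zero, one_mul, hR0]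
    | succ j ih =>
      by_cases h : ((R j).card : ℝ) ≤ ε * V.card
      · left
        refine le_trans ?_ h
        exact_mod_cast card_le_card (hRanti j (j + 1) (Nat.le_succ j))
      · right
        have h2 := ih.resolve_left h
        push Not at h
        have h3 : Wc (R j) = W (R j) := by
          simp only [hWc, h, if_true]
        have h4 : c * ((R j).card : ℝ) ≤ (W (R j)).card :=
          hW3 (R j) (hRV j) (hV.trans h.le)
        rw [hRs, h3, cast_card_sdiff (hW1 _), pow_succ]
        have h5 : 0 ≤ 1 - c := by linarith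
        nlinarith
  refine ⟨fun j => U j, fun j => (hUR j).trans (hRV j), ?_, ?_, ?_, ?_⟩
  · intro i j hij
    rcases lt_or_gt_of_ne hij with h | h
    · exact hdis i j h
    · exact (hdis j i h).symm
  · have e : (univ : Finset (Fin J)).biUnion (fun j => U j) = (range J).biUnion U := by
      ext a
      simp only [mem_biUnion, mem_univ, true_and, mem_range]
      constructor
      · rintro ⟨j, hj⟩
        exact ⟨j, j.2, hj⟩
      · rintro ⟨j, hj, ha⟩
        exact ⟨⟨j, hj⟩, ha⟩
    rw [e, hRU]
    rcases hRc J with h | h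
    · exact h
    · exact h.trans (mul_le_mul_of_nonneg_right hJ (Nat.cast_nonneg _))
  · intro j
    have e : (Iio j).biUnion (fun j : Fin J => U j) = (range (j : ℕ)).biUnion U := by
      ext a
      simp only [mem_biUnion, mem_Iio, mem_range]
      constructor
      · rintro ⟨i, hi, ha⟩
        exact ⟨i, hi, ha⟩
      · rintro ⟨i, hi, ha⟩
        exact ⟨⟨i, by omega⟩, hi, ha⟩
    rw [e, hRU]
    by_cases h : ε * (V.card : ℝ) < (R j).card
    · right
      have h3 : U j = W (R j) := by
        simp only [hU, hWc, h, if_true]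
      show c * ((R j).card : ℝ) ≤ ((U j).card : ℝ)
      rw [h3]
      exact hW3 (R j) (hRV j) (hV.trans h.le)
    · left
      simp only [hU, hWc, h, if_false]
  · intro j
    simp only [hU, hWc]
    split_ifs
    · exact hW2 _
    · exact hP0

end Pool.Agent.V11161.CL
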