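import Mathlib
import Pool.Agent.V11161.GV.R
import Pool.Agent.V11161.CL.Cluster
import Pool.Agent.V11161.CL.Part
import Pool.Agent.Y827.RO.NarF

set_option autoImplicit false

/-!
# Clusters of linear forms
-/

namespace Pool.Agent.V11161.CL

open Finset Filter Topology
open Pool.Agent.W25.QL (Fails QProp bad_rare)
open Pool.Agent.Y827.GS (Adf cntN cntN_anti)
open Pool.Agent.Y827.RO (lamRD log_ge_one)
open Pool.Agent.V11161.GV (dichR)

open Classical in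
/-- `r` sets of linear forms: many good pairs of forms from two of the sets, or a cluster in one of
the sets -/
theorem mainC {r : ℕ} (hr : 0 < r) (μ : ℝ) (hμ : (18 / 5 : ℝ) = r * μ) (hμ1 : 1 ≤ μ) (k : ℕ)
    (ε : ℝ) (hε : 0 < ε) :
    ∃ z n₀ C : ℕ, ∃ δ : ℝ, 0 < δ ∧ ∀ A : ℕ, ∀ᶠ N : ℕ in atTop, ∀ V : Fin r → Finset (ℤ × ℤ),
      (∀ j, (V j).card = (V ⟨0, hr⟩).card) → n₀ ≤ (V ⟨0, hr⟩).card →
      (∀ j j', j ≠ j' → Disjoint (V j) (V j')) → (∀ j, ∀ f ∈ V j, Adf A N f) →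
      (∀ p : ℕ, p.Prime → p ≤ z → ∃ t : ℤ, ∀ j, ∀ f ∈ V j, ¬ ((p : ℤ) ∣ f.1 * t + f.2)) →
      (∃ j j', j < j' ∧ δ * ((V ⟨0, hr⟩).card : ℝ) ^ 2 ≤ (((V j ×ˢ V j').filter fun u =>
        (N : ℝ) / (Real.log N) ^ C ≤ (cntN {u.1, u.2} N : ℝ)).card : ℝ)) ∨
      (∃ j, ∃ U ⊆ V j, (1 / μ - ε) * ((V j).card : ℝ) ≤ U.card ∧
        (1 - ε) * (U.card : ℝ) ^ (k + 1) ≤
        (((Fintype.piFinset fun _ : Fin (k + 1) => U).filter fun t => Function.Injective t ∧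
          (N : ℝ) / (Real.log N) ^ C ≤ (cntN (univ.image t) N : ℝ)).card : ℝ)) := by
  have hr0 : (0 : ℝ) < r := by exact_mod_cast hr
  choose Kf hKf1 hKf using lamRD
  obtain ⟨T, n₁, hT1, hcl⟩ := cluster hμ1 k ε hε
  have hTr : (0 : ℝ) < T := by exact_mod_cast hT1
  obtain ⟨M, hM⟩ := bad_rare (lam := 18 / 5) (by norm_num) (r * T) Kf
    ((1 / 4) ^ r / (2 * (r : ℝ) ^ (r * T))) (by positivity)
  obtain ⟨n₀, hn₀⟩ := hM Unit
  set C : ℕ := ∑ T' ∈ range (M + 1), (T' * Kf T' + 2) with hCdef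
  refine ⟨∑ T' ∈ range (M + 1), T' * Kf T', n₀ + n₁ + 1, C,
    (1 / 4) ^ r / (4 * ((r : ℝ) * T) ^ 2 * (r : ℝ) ^ 2 * (r : ℝ) ^ (r * T)), by positivity, ?_⟩
  intro A
  have hev : ∀ᶠ N : ℕ in atTop, ∀ T' : Fin (M + 1), 1 ≤ (T' : ℕ) →
      ∀ H : Fin (T' : ℕ) → Fin (Kf T') → ℤ × ℤ,
      Function.Injective (fun z : Fin (T' : ℕ) × Fin (Kf T') => H z.1 z.2) →
      (∀ g i, Adf A N (H g i)) →
      (∀ p : ℕ, p.Prime → p ≤ T' * Kf T' → ∃ r : ℤ, ∀ g i,
        ¬ (p : ℤ) ∣ (H g i).1 * r + (H g i).2) →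
      ∃ (S : Finset (Fin (T' : ℕ))) (cc : Fin (T' : ℕ) → Fin (Kf T')),
        ((T' : ℕ) : ℝ) ≤ (18 / 5) * (S.card : ℝ) ∧
        (N : ℝ) / (Real.log N) ^ (T' * Kf T' + 2) ≤
          (cntN (S.image (fun g => H g (cc g))) N : ℝ) := by
    rw [eventually_all]
    intro T'
    by_cases h0 : 1 ≤ (T' : ℕ)
    swap
    · exact Eventually.of_forall fun x h => absurd h h0
    filter_upwards [hKf T' h0 A] with N hN _ H hinj hAd hadm
    exact hN H hinj hAd hadm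
  filter_upwards [hev, eventually_ge_atTop 3] with N hN hN3
  intro V hcard hVn hdis hAd hloc
  have hL1 : (1 : ℝ) ≤ Real.log N := log_ge_one hN3
  by_contra hcon
  push Not at hcon
  obtain ⟨hg, hv⟩ := hcon
  set G : Finset (ℤ × ℤ) → Prop := fun F => (N : ℝ) / (Real.log N) ^ C ≤ (cntN F N : ℝ) with hGd
  have hG : ∀ F F' : Finset (ℤ × ℤ), F' ⊆ F → G F → G F' := fun F F' hF h =>
    h.trans (by exact_mod_cast cntN_anti hF N)
  set X : Finset (ℤ × ℤ) := univ.biUnion V with hXd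
  have hVX : ∀ j, V j ⊆ X := fun j => subset_biUnion_of_mem V (mem_univ j)
  have hXle : X.card ≤ r * (V ⟨0, hr⟩).card := by
    refine card_biUnion_le.trans (le_of_eq ?_)
    rw [sum_congr rfl fun j _ => hcard j, sum_const, card_univ, Fintype.card_fin, smul_eq_mul]
  have key := hn₀ (ℤ × ℤ) X (fun _ => ()) G (by
      have := card_le_card (hVX ⟨0, hr⟩)
      omega) hG (by
      intro T' hT'1 hT'M H hHV hHinj _
      have hmem : ∀ g i, ∃ j, H g i ∈ V j := by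
        intro g i
        obtain ⟨j, -, hj⟩ := mem_biUnion.1 (hHV g i)
        exact ⟨j, hj⟩
      obtain ⟨S, cc, hS, hcc⟩ := hN ⟨T', by omega⟩ hT'1 H hHinj (fun g i => by
          obtain ⟨j, hj⟩ := hmem g i
          exact hAd j _ hj) (by
          intro p hp hpT
          obtain ⟨t, ht⟩ := hloc p hp (hpT.trans
            (Finset.single_le_sum (f := fun T' => T' * Kf T') (fun _ _ => Nat.zero_le _)
              (mem_range.2 (by omega))))
          refine ⟨t, fun g i => ?_⟩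
          obtain ⟨j, hj⟩ := hmem g i
          exact ht j _ hj)
      refine ⟨S, cc, hS, le_trans ?_ hcc⟩
      apply div_le_div_of_nonneg_left (Nat.cast_nonneg _) (by positivity)
      apply pow_le_pow_right₀ hL1
      exact Finset.single_le_sum (f := fun T' => T' * Kf T' + 2) (fun _ _ => Nat.zero_le _)
        (mem_range.2 (by omega : T' < M + 1)))
  obtain ⟨j, h⟩ := dichR G hG hr hμ V X hXle hVX hdis hcard (by omega) T hT1 (1 / 4)
    (by norm_num) key (fun j j' hjj => hg j j' hjj)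
  obtain ⟨U, hU1, hU2, hU3⟩ := hcl (ℤ × ℤ) (V j) G (by rw [hcard j]; omega) hG h.le
  exact absurd hU3 (not_le.2 (hv j U hU1 hU2))

open Classical in
/-- clusters in a set of linear forms -/
theorem mainOne (k : ℕ) (ε : ℝ) (hε : 0 < ε) :
    ∃ z n₀ C : ℕ, ∀ A : ℕ, ∀ᶠ N : ℕ in atTop, ∀ V : Finset (ℤ × ℤ), n₀ ≤ V.card →
      (∀ f ∈ V, Adf A N f) →
      (∀ p : ℕ, p.Prime → p ≤ z → ∃ t : ℤ, ∀ f ∈ V, ¬ ((p : ℤ) ∣ f.1 * t + f.2)) →
      ∃ U ⊆ V, (5 / 18 - ε) * (V.card : ℝ) ≤ U.card ∧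
        (1 - ε) * (U.card : ℝ) ^ (k + 1) ≤
        (((Fintype.piFinset fun _ : Fin (k + 1) => U).filter fun t => Function.Injective t ∧
          (N : ℝ) / (Real.log N) ^ C ≤ (cntN (univ.image t) N : ℝ)).card : ℝ) := by
  obtain ⟨z, n₀, C, δ, hδ, h⟩ := mainC (r := 1) one_pos (18 / 5) (by norm_num) (by norm_num) k ε hε
  refine ⟨z, n₀, C, fun A => ?_⟩
  filter_upwards [h A] with N hN
  intro V hn hAd hloc
  have key := hN (fun _ => V) (fun _ => rfl) hn (by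
      intro j j' hjj
      exact absurd (Subsingleton.elim j j') hjj) (fun _ => hAd) (by
      intro p hp hpz
      obtain ⟨t, ht⟩ := hloc p hp hpz
      exact ⟨t, fun _ => ht⟩)
  rcases key with ⟨j, j', hjj, -⟩ | ⟨j, U, h1, h2, h3⟩
  · exact absurd hjj (by rw [Subsingleton.elim j j']; exact lt_irrefl _)
  · refine ⟨U, h1, ?_, h3⟩
    have e : (1 / (18 / 5) : ℝ) = 5 / 18 := by norm_num
    rw [e] at h2
    exact h2

/-- the number of parts -/
theorem parts (ε : ℝ) (hε : 0 < ε) : ∃ J : ℕ, ((7 : ℝ) / 9) ^ J ≤ ε := by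
  obtain ⟨J, hJ⟩ := exists_pow_lt_of_lt_one hε (show (7 : ℝ) / 9 < 1 by norm_num)
  exact ⟨J, hJ.le⟩

open Classical in
/-- **the partition theorem for linear forms** -/
theorem mainPart (k : ℕ) (ε : ℝ) (hε : 0 < ε) :
    ∃ z n₀ C J : ℕ, ∀ A : ℕ, ∀ᶠ N : ℕ in atTop, ∀ V : Finset (ℤ × ℤ), n₀ ≤ V.card →
      (∀ f ∈ V, Adf A N f) →
      (∀ p : ℕ, p.Prime → p ≤ z → ∃ t : ℤ, ∀ f ∈ V, ¬ ((p : ℤ) ∣ f.1 * t + f.2)) →
      ∃ U : Fin J → Finset (ℤ × ℤ), (∀ j, U j ⊆ V) ∧ (∀ i j, i ≠ j → Disjoint (U i) (U j)) ∧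
        ((V \ univ.biUnion U).card : ℝ) ≤ ε * V.card ∧
        (∀ j, U j = ∅ ∨ (5 / 18 - ε) * ((V \ (Iio j).biUnion U).card : ℝ) ≤ (U j).card) ∧
        ∀ j, (1 - ε) * ((U j).card : ℝ) ^ (k + 1) ≤
        (((Fintype.piFinset fun _ : Fin (k + 1) => U j).filter fun t => Function.Injective t ∧
          (N : ℝ) / (Real.log N) ^ C ≤ (cntN (univ.image t) N : ℝ)).card : ℝ) := by
  set e : ℝ := min ε (1 / 18) with he
  have he0 : 0 < e := lt_min hε (by norm_num)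
  have heε : e ≤ ε := min_le_left _ _
  have he1 : e ≤ 1 / 18 := min_le_right _ _
  obtain ⟨z, n₀, C, h⟩ := mainOne k e he0
  obtain ⟨J, hJ⟩ := parts e he0
  refine ⟨z, ⌈(n₀ : ℝ) / e⌉₊, C, J, fun A => ?_⟩
  filter_upwards [h A] with N hN
  intro V hn hAd hloc
  have hnV : (n₀ : ℝ) ≤ e * V.card := by
    have h1 : (n₀ : ℝ) / e ≤ V.card := (Nat.le_ceil _).trans (by exact_mod_cast hn)
    rw [div_le_iff₀ he0] at h1
    linarith
  obtain ⟨U, h1, h2, h3, h4, h5⟩ := partition e (5 / 18 - e) (by linarith) n₀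
    (fun U : Finset (ℤ × ℤ) => (1 - e) * (U.card : ℝ) ^ (k + 1) ≤
        (((Fintype.piFinset fun _ : Fin (k + 1) => U).filter fun t => Function.Injective t ∧
          (N : ℝ) / (Real.log N) ^ C ≤ (cntN (univ.image t) N : ℝ)).card : ℝ))
    (by
      rw [card_empty, Nat.cast_zero, zero_pow (Nat.succ_ne_zero k), mul_zero]
      exact Nat.cast_nonneg _) V hnV (by
      intro R hR hRn
      exact hN R hRn (fun f hf => hAd f (hR hf)) (by
        intro p hp hpz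
        obtain ⟨t, ht⟩ := hloc p hp hpz
        exact ⟨t, fun f hf => ht f (hR hf)⟩)) J (by
      refine le_trans (pow_le_pow_left₀ (by linarith) (by linarith) J) hJ)
  refine ⟨U, h1, h2, ?_, ?_, ?_⟩
  · exact h3.trans (mul_le_mul_of_nonneg_right heε (Nat.cast_nonneg _))
  · intro j
    rcases h4 j with h | h
    · exact Or.inl h
    · right
      refine le_trans (mul_le_mul_of_nonneg_right ?_ (Nat.cast_nonneg _)) h
      linarith
  · intro j
    refine le_trans (mul_le_mul_of_nonneg_right ?_ (by positivity)) (h5 j)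
    linarith

end Pool.Agent.V11161.CL
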