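import Mathlib
import Pool.Agent.V11161.CL.Main
import Pool.Agent.V11161.GV.Conv

set_option autoImplicit false

/-!
# Clusters of shifts
-/

namespace Pool.Agent.V11161.CL

open Finset Filter Topology
open Pool.Agent.Y827.GS (Adf cntN)
open Pool.Agent.V11161.GV (lf lf_inj adf_lf conv_tup)

/-- the number of the `n ≤ N` with `n + a_0, …, n + a_k` all prime -/
noncomputable def cp {k : ℕ} (a : Fin (k + 1) → ℕ) (N : ℕ) : ℕ :=
  {n : ℕ | n ≤ N ∧ ∀ i, (n + a i).Prime}.ncard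

open Classical in
theorem conv_U {k : ℕ} (U : Finset ℕ) (X : ℝ) (N : ℕ) :
    (((Fintype.piFinset (fun _ : Fin (k + 1) => U.image lf)).filter
      (fun y => Function.Injective y ∧ X ≤ (cntN (univ.image y) N : ℝ))).card : ℝ) ≤
    (((Fintype.piFinset (fun _ : Fin (k + 1) => U)).filter
      (fun a => Function.Injective a ∧ X ≤ (cp a N : ℝ))).card : ℝ) := by
  refine (conv_tup lf U X N).trans ?_
  rw [Nat.cast_le, ← Set.ncard_coe_finset]
  refine Set.ncard_le_ncard ?_ (Finset.finite_toSet _)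
  rintro a ⟨h1, h2, h3⟩
  rw [mem_coe, mem_filter, Fintype.mem_piFinset]
  refine ⟨h1, h2, ?_⟩
  have e : ∀ (n v : ℕ), ((lf v).1 * (n : ℤ) + (lf v).2).toNat = n + v := by
    intro n v
    show (1 * (n : ℤ) + (v : ℤ)).toNat = n + v
    omega
  simp only [e] at h3
  exact h3

open Classical in
/-- the partition theorem for shifts, at one scale -/
theorem natPart (k : ℕ) (ε : ℝ) (hε : 0 < ε) :
    ∃ z n₀ C J : ℕ, ∀ᶠ N : ℕ in atTop, ∀ V : Finset ℕ, n₀ ≤ V.card →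
      (∀ v ∈ V, v ≤ N) →
      (∀ p : ℕ, p.Prime → p ≤ z → ∃ r : ℤ, ∀ v ∈ V, ¬ ((p : ℤ) ∣ r + v)) →
      ∃ U : Fin J → Finset ℕ, (∀ j, U j ⊆ V) ∧ (∀ i j, i ≠ j → Disjoint (U i) (U j)) ∧
        ((V \ univ.biUnion U).card : ℝ) ≤ ε * V.card ∧
        (∀ j, U j = ∅ ∨ (5 / 18 - ε) * ((V \ (Iio j).biUnion U).card : ℝ) ≤ (U j).card) ∧
        ∀ j, (1 - ε) * ((U j).card : ℝ) ^ (k + 1) ≤
          (((Fintype.piFinset (fun _ : Fin (k + 1) => U j)).filter
      (fun a => Function.Injective a ∧ (N : ℝ) / (Real.log N) ^ C ≤ (cp a N : ℝ))).card : ℝ) := by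
  obtain ⟨z, n₀, C, J, h⟩ := mainPart k ε hε
  refine ⟨z, n₀, C, J, ?_⟩
  filter_upwards [h 1] with N hN
  intro V hn hV hloc
  have hcV : (V.image lf).card = V.card := card_image_of_injective _ lf_inj
  obtain ⟨U', h1, h2, h3, h4, h5⟩ := hN (V.image lf) (by rw [hcV]; exact hn) (by
      intro f hf
      obtain ⟨v, hv, rfl⟩ := mem_image.1 hf
      exact adf_lf (hV v hv)) (by
      intro p hp hpz
      obtain ⟨t, ht⟩ := hloc p hp hpz
      refine ⟨t, fun f hf => ?_⟩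
      obtain ⟨v, hv, rfl⟩ := mem_image.1 hf
      have e : (lf v).1 * t + (lf v).2 = t + v := by
        show (1 : ℤ) * t + v = t + v
        ring
      rw [e]
      exact ht v hv)
  set U : Fin J → Finset ℕ := fun j => V.filter fun v => lf v ∈ U' j with hU
  have hUi : ∀ j, U' j = (U j).image lf := by
    intro j
    ext f
    rw [mem_image]
    constructor
    · intro hf
      obtain ⟨v, hv, rfl⟩ := mem_image.1 (h1 j hf)
      exact ⟨v, mem_filter.2 ⟨hv, hf⟩, rfl⟩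
    · rintro ⟨v, hv, rfl⟩
      exact (mem_filter.1 hv).2
  have hUc : ∀ j, (U' j).card = (U j).card := by
    intro j
    rw [hUi]
    exact card_image_of_injective _ lf_inj
  have hsd : ∀ S : Finset (Fin J), V.image lf \ S.biUnion U' = (V \ S.biUnion U).image lf := by
    intro S
    have e : S.biUnion U' = (S.biUnion U).image lf := by
      rw [biUnion_image]
      refine biUnion_congr rfl fun j _ => hUi j
    rw [e, image_sdiff _ _ lf_inj]
  have hsdc : ∀ S : Finset (Fin J), (V.image lf \ S.biUnion U').card = (V \ S.biUnion U).card := by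
    intro S
    rw [hsd]
    exact card_image_of_injective _ lf_inj
  refine ⟨U, fun j => filter_subset _ _, ?_, ?_, ?_, ?_⟩
  · intro i j hij
    rw [Finset.disjoint_left]
    intro v hv hv'
    exact Finset.disjoint_left.1 (h2 i j hij) (mem_filter.1 hv).2 (mem_filter.1 hv').2
  · rw [hsdc, hcV] at h3
    exact h3
  · intro j
    rcases h4 j with h | h
    · left
      apply filter_eq_empty_iff.2
      intro v _ hv
      rw [h] at hv
      exact absurd hv (notMem_empty _)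
    · right
      rw [hsdc, hUc] at h
      exact h
  · intro j
    have h6 := h5 j
    rw [hUc] at h6
    rw [hUi j] at h6
    exact h6.trans (conv_U (U j) _ N)

/-- if a property holds eventually for one of finitely many things, then it holds frequently for
one of them -/
theorem freq_pigeon {β : Type} (S : Finset β) (Q : β → ℕ → Prop)
    (h : ∀ᶠ N : ℕ in atTop, ∃ s ∈ S, Q s N) : ∃ s ∈ S, ∃ᶠ N : ℕ in atTop, Q s N := by
  by_contra hcon
  push Not at hcon
  have h1 : ∀ᶠ N : ℕ in atTop, ∀ s ∈ S, ¬ Q s N := by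
    rw [Filter.eventually_all_finset]
    intro s hs
    exact hcon s hs
  obtain ⟨N, h2, h3⟩ := (h.and h1).exists
  obtain ⟨s, hs, hq⟩ := h2
  exact h3 s hs hq

open Classical in
/-- **the partition theorem for a fixed set of shifts** -/
theorem fixPart (k : ℕ) (ε : ℝ) (hε : 0 < ε) :
    ∃ z n₀ C J : ℕ, ∀ V : Finset ℕ, n₀ ≤ V.card →
      (∀ p : ℕ, p.Prime → p ≤ z → ∃ r : ℤ, ∀ v ∈ V, ¬ ((p : ℤ) ∣ r + v)) →
      ∃ (U : Fin J → Finset ℕ) (G : Fin J → Finset (Fin (k + 1) → ℕ)),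
        (∀ j, U j ⊆ V) ∧ (∀ i j, i ≠ j → Disjoint (U i) (U j)) ∧
        ((V \ univ.biUnion U).card : ℝ) ≤ ε * V.card ∧
        (∀ j, U j = ∅ ∨ (5 / 18 - ε) * ((V \ (Iio j).biUnion U).card : ℝ) ≤ (U j).card) ∧
        (∀ j, ∀ a ∈ G j, Function.Injective a ∧ ∀ i, a i ∈ U j) ∧
        (∀ j, (1 - ε) * ((U j).card : ℝ) ^ (k + 1) ≤ ((G j).card : ℝ)) ∧
        ∃ᶠ N : ℕ in atTop, ∀ j, ∀ a ∈ G j, (N : ℝ) / (Real.log N) ^ C ≤ (cp a N : ℝ) := by
  obtain ⟨z, n₀, C, J, h⟩ := natPart k ε hε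
  refine ⟨z, n₀, C, J, fun V hn hloc => ?_⟩
  set S : Finset ((Fin J → Finset ℕ) × (Fin J → Finset (Fin (k + 1) → ℕ))) :=
    (Fintype.piFinset fun _ : Fin J => V.powerset) ×ˢ
      (Fintype.piFinset fun _ : Fin J => (Fintype.piFinset fun _ : Fin (k + 1) => V).powerset) with hS
  have h1 : ∀ᶠ N : ℕ in atTop, ∃ s ∈ S,
      ((∀ j, s.1 j ⊆ V) ∧ (∀ i j, i ≠ j → Disjoint (s.1 i) (s.1 j)) ∧
        ((V \ univ.biUnion s.1).card : ℝ) ≤ ε * V.card ∧
        (∀ j, s.1 j = ∅ ∨ (5 / 18 - ε) * ((V \ (Iio j).biUnion s.1).card : ℝ) ≤ (s.1 j).card) ∧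
        (∀ j, ∀ a ∈ s.2 j, Function.Injective a ∧ ∀ i, a i ∈ s.1 j) ∧
        (∀ j, (1 - ε) * ((s.1 j).card : ℝ) ^ (k + 1) ≤ ((s.2 j).card : ℝ))) ∧
        ∀ j, ∀ a ∈ s.2 j, (N : ℝ) / (Real.log N) ^ C ≤ (cp a N : ℝ) := by
    filter_upwards [h, eventually_ge_atTop (V.sup id)] with N hN hNV
    obtain ⟨U, h1, h2, h3, h4, h5⟩ := hN V hn (fun v hv =>
      (Finset.le_sup (f := id) hv).trans hNV) hloc
    refine ⟨(U, fun j => (Fintype.piFinset (fun _ : Fin (k + 1) => U j)).filter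
      (fun a => Function.Injective a ∧ (N : ℝ) / (Real.log N) ^ C ≤ (cp a N : ℝ))), ?_,
      ⟨h1, h2, h3, h4, ?_, h5⟩, ?_⟩
    · rw [hS, mem_product, Fintype.mem_piFinset, Fintype.mem_piFinset]
      refine ⟨fun j => mem_powerset.2 (h1 j), fun j => mem_powerset.2 ?_⟩
      intro a ha
      have h6 := Fintype.mem_piFinset.1 (mem_filter.1 ha).1
      rw [Fintype.mem_piFinset]
      exact fun i => h1 j (h6 i)
    · intro j a ha
      obtain ⟨h6, h7, -⟩ := mem_filter.1 ha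
      exact ⟨h7, Fintype.mem_piFinset.1 h6⟩
    · intro j a ha
      exact (mem_filter.1 ha).2.2
  obtain ⟨s, -, hs⟩ := freq_pigeon S _ h1
  obtain ⟨N₁, hN₁, -⟩ := hs.exists
  obtain ⟨a1, a2, a3, a4, a5, a6⟩ := hN₁
  exact ⟨s.1, s.2, a1, a2, a3, a4, a5, a6, hs.mono fun N hN => hN.2⟩

end Pool.Agent.V11161.CL
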